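import Pool.Agent.MP_ee8c61_ag.M3.Defs

/-! The theorem from the statements of the blocks. -/

namespace Pool.Agent.MP_ee8c61_ag.M3

open Polynomial

/-- The rational functions without pole at `s`. -/
noncomputable def regAt (s : ℂ) : Subring (RatFunc ℂ) where
  carrier := {Z | ¬Z.denom.IsRoot s}
  zero_mem' := by simp
  one_mem' := by simp
  neg_mem' := fun {Z} h h' => h (by
    have := RatFunc.denom_mul_dvd (RatFunc.C (-1)) Z
    rw [RatFunc.denom_C, one_mul, map_neg, map_one, neg_one_mul] at this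
    exact h'.dvd this)
  add_mem' := fun {Z Z'} h h' h2 =>
    (mul_eq_zero.1 ((eval_mul (x := s)).symm.trans
      (h2.dvd (RatFunc.denom_add_dvd Z Z')))).elim h h'
  mul_mem' := fun {Z Z'} h h' h2 =>
    (mul_eq_zero.1 ((eval_mul (x := s)).symm.trans
      (h2.dvd (RatFunc.denom_mul_dvd Z Z')))).elim h h'

theorem lin_mem {s : ℂ} {a k : ℕ} (h : (a : ℂ) * s + k + 1 ≠ 0) :
    1 / ((a : RatFunc ℂ) * RatFunc.X + (k : RatFunc ℂ) + 1) ∈ regAt s := fun h2 => h (by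
  have e : 1 / ((a : RatFunc ℂ) * RatFunc.X + (k : RatFunc ℂ) + 1) =
      algebraMap ℂ[X] (RatFunc ℂ) 1 /
        algebraMap ℂ[X] (RatFunc ℂ) ((a : ℂ[X]) * X + (k : ℂ[X]) + 1) := by simp
  have h3 := RatFunc.denom_div_dvd (1 : ℂ[X]) ((a : ℂ[X]) * X + (k : ℂ[X]) + 1)
  rw [← e] at h3
  simpa using h2.dvd h3)

theorem top (hB1 : M3B1.SB1) (hDAT : SDAT) (hBS : SBS) (hCH : SCH) (hR1 : SR1) (hD : SDEATH)
    (hL : SLAST) (hBK : SBOOK) : Main := by
  intro f b Y π J _ E a k χ hf hb hY hχ s hs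
  obtain ⟨M, hM, -⟩ := hB1 3 f {1} hf ⟨0, by simp⟩
  obtain ⟨χ₀, hχ₀, hz⟩ := hDAT 3 f Y π J E a k χ hY hχ
  rw [hz M hM] at hs
  obtain ⟨β, Q, hbs⟩ := hBS 3 f b hf hb
  obtain ⟨j, hj⟩ : ∃ j, (M.a j : ℂ) * s + M.k j + 1 = 0 := by
    by_contra! hn
    exact (show M.zeta χ₀ ∈ regAt s from sum_mem fun I _ =>
      mul_mem (intCast_mem _ _) (prod_mem fun i _ => lin_mem (hn i))) hs
  have ha : (M.a j : ℂ) ≠ 0 := Nat.cast_ne_zero.2 (hM.pos j).ne'
  obtain rfl : s = -(((M.k j + 1) / M.a j : ℚ) : ℂ) := by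
    push_cast
    field_simp
    linear_combination hj
  by_contra hn
  have H : Hyp f ((M.k j + 1) / M.a j) b β Q := ⟨hf, hb, hbs, hn⟩
  refine hBK f _ b β Q M χ₀ H hM hχ₀ (fun o ho => ?_) hs
  obtain ⟨C, hA, hC | hC⟩ := hCH f M hf hM o
  · exact hD f _ b β Q M o C H hM ho hA hC
  · refine hL f _ b β Q M o C H hM ho hA hC ⟨-1, by rw [hC]; norm_num, ?_⟩
    intro s _ h2 m c hm hc g hg
    by_contra h3
    exact hn (hR1 3 f _ b M o C.h s m c hf hb hM ho C.amp (hC ▸ h2) hm hc g hg h3)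

end Pool.Agent.MP_ee8c61_ag.M3
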