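import Pool.Agent.MP_ee8c61_ag.M3.Eu
import Pool.Agent.MP_ee8c61_ag.M3E.Kit
import Pool.Agent.MP_ee8c61_ag.M3RESID.Defs
import Pool.Agent.MP_ee8c61_ag.M3B1.Basic
import Pool.Agent.MP_ee8c61_ag.H95.Defs

/-!
The zeta function of a model, the functional equation in the field of rational functions,
residue fields, frames and chambers; the statements of the blocks.
-/

namespace Pool.Agent.MP_ee8c61_ag.M3

open H59 hiding pd
open M3RESID Finset
open Pool.Agent.MP_96693b_ag.RS (Loc LocOf)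
open M3B1 (pd)

noncomputable section

/-! ### Residue fields -/

section Res

variable {L : Type} [Field L] [Algebra ℂ L] (o : DV L)

theorem DV.cst (c : ℂ) : o.v (algebraMap ℂ L c) = 0 := by
  obtain ⟨r, hr⟩ := IsAlgClosed.exists_pow_nat_eq c
    (n := (o.v (algebraMap ℂ L c)).natAbs + 1) (Nat.succ_pos _)
  have h1 := o.pow (algebraMap ℂ L r) ((o.v (algebraMap ℂ L c)).natAbs + 1)
  rw [← map_pow, hr] at h1
  exact Int.eq_zero_of_dvd_of_natAbs_lt_natAbs ⟨_, h1⟩ (by rw [Int.natAbs_natCast]; omega)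

theorem DV.cst_mem (c : ℂ) : algebraMap ℂ L c ∈ o.F 0 := Or.inr (o.cst c).ge

/-- The residue field. -/
def DV.kf : Type := IsLocalRing.ResidueField o.O

instance : Field o.kf := inferInstanceAs (Field (IsLocalRing.ResidueField o.O))

/-- The residue map on the valuation ring. -/
def DV.rh : o.O →+* o.kf := IsLocalRing.residue o.O

instance : Algebra ℂ o.kf :=
  (o.rh.comp ((algebraMap ℂ L).codRestrict o.O o.cst_mem)).toAlgebra

open Classical in
/-- The place of a valuation. -/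
def DV.pl : Pl L o.kf where
  o := o
  π g := if h : g ∈ o.F 0 then o.rh ⟨g, h⟩ else 0
  add g hg h hh := by
    rw [dif_pos hg, dif_pos hh, dif_pos (add_mem hg hh), ← map_add]
    rfl
  mul g hg h hh := by
    rw [dif_pos hg, dif_pos hh, dif_pos (show g * h ∈ o.F 0 from o.O.mul_mem g h hg hh), ← map_mul]
    rfl
  cst c := ⟨o.cst_mem c, dif_pos (o.cst_mem c)⟩
  ker g hg := by
    rw [dif_pos hg]
    refine (IsLocalRing.residue_eq_zero_iff _).trans ?_
    rw [IsLocalRing.mem_maximalIdeal, mem_nonunits_iff]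
    by_cases h0 : g = 0
    · subst h0
      exact iff_of_true (fun h => h.ne_zero rfl) (zero_mem _)
    have h1 : 0 ≤ o.v g := hg.resolve_left h0
    refine ⟨fun h => Or.inr (not_lt.1 fun h2 => h ?_), fun h h2 => ?_⟩
    · exact IsUnit.of_mul_eq_one (⟨g⁻¹, Or.inr (by rw [o.inv]; omega)⟩ : o.O)
        (Subtype.ext (mul_inv_cancel₀ h0))
    · obtain ⟨t, ht⟩ := h2.exists_right_inv
      have h3 : g * t = 1 := congrArg Subtype.val ht
      have h4 := o.F_mul h t.2
      rw [h3] at h4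
      have h5 := h4.resolve_left one_ne_zero
      rw [o.one] at h5
      omega
  surj y := by
    obtain ⟨g, hg⟩ := IsLocalRing.residue_surjective (R := o.O) y
    exact ⟨g, g.2, (dif_pos g.2).trans hg⟩

end Res

variable {N : ℕ}

/-! ### The zeta function of a model -/

namespace Mod

variable (M : Mod N)

/-- The closed points. -/
def pts : Set (Loc (KK N)) := {P | ∃ b, LocOf (M.S.A b) P}

/-- The point lies on the divisor `j`. -/
def On (P : Loc (KK N)) (j : M.J) : Prop := ∀ g ∈ P.O, g ∈ (M.v j).F 0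

/-- The points that lie exactly on the divisors in `I`. -/
def str (I : Finset M.J) : Set (Loc (KK N)) := {P ∈ M.pts | ∀ j, M.On P j ↔ j ∈ I}

/-- The topological zeta function. -/
def zeta (χ : H36.Chi) : RatFunc ℂ :=
  ∑ I : Finset M.J, (chiP χ (M.str I) : RatFunc ℂ) *
    ∏ i ∈ I, 1 / ((M.a i : RatFunc ℂ) * RatFunc.X + (M.k i : RatFunc ℂ) + 1)

/-- The log canonical divisor. -/
def nu : M.J → ℚ := fun j => M.k j + 1

/-- The exponents at `s = -la`. -/
def ex (la : ℚ) : M.J → ℚ := fun j => M.k j + 1 - la * M.a j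

end Mod

/-! ### The functional equation -/

/-- The coordinate functions. -/
def xx (N : ℕ) (l : Fin N) : KK N := ip N (MvPolynomial.X l)

/-- The standard coordinates. -/
def co (N : ℕ) : Co (KK N) N where
  z := xx N
  D := pd N
  ne l := M3B1.ip_ne (MvPolynomial.X_ne_zero l)
  dual := M3B1.pd_X
  span _ h := Derivation.ext (M3B1.der_zero h)

/-- The divergence of the form `f ^ (-la) d x`. -/
def dvf (f : Po N) (la : ℚ) : Dv (KK N) := (co N).dv.tw (ip N f) (-(la : ℂ))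

open MvPolynomial in
/-- The equation `b = f Q + (d + s dlog f + ∑ ξ i d x i) β`. -/
structure BSd (f : Po N) (b : Polynomial ℂ) (β : Fin N → PX N (KK N)) (Q : PX N (KK N)) :
    Prop where
  pol : ∃ u : ℕ, ∀ l e, ip N f ^ u * coeff e (β l) ∈ (ip N).range
  reg : ∀ e, coeff e Q ∈ (ip N).range
  eq : Polynomial.aeval (X none : PX N (KK N)) b = C (ip N f) * Q +
    ∑ l, (dpol _ (pd N l) (β l) + (∑ i, X (some i) * C (pd N l (xx N i)) +
      X none * C ((ip N f)⁻¹ * pd N l (ip N f))) * β l)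

/-- The value at `s = -la`, `ξ = 0`. -/
def ev0 (la : ℚ) : PX N (KK N) →+* KK N :=
  MvPolynomial.eval fun i => i.elim (-(la : KK N)) fun _ => 0

/-- The primitive at `s = -la`, `ξ = 0`, as a vector field. -/
def bf (la : ℚ) (β : Fin N → PX N (KK N)) : VF (KK N) := ∑ l, ev0 la (β l) • pd N l

/-- The derivative of the primitive with respect to `s`. -/
def bf1 (la : ℚ) (β : Fin N → PX N (KK N)) : VF (KK N) :=
  ∑ l, ev0 la (MvPolynomial.pderiv none (β l)) • pd N l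

/-- The standing hypothesis: `-la` is not a root. -/
structure Hyp (f : Po N) (la : ℚ) (b : Polynomial ℂ) (β : Fin N → PX N (KK N))
    (Q : PX N (KK N)) : Prop where
  ne : f ≠ 0
  isbs : H10.IsBS ![f] b
  bs : BSd f b β Q
  nr : b.eval (-(la : ℂ)) ≠ 0

/-! ### Frames -/

/-- Modulo exact fields `v` is the Euler field of a variable `y` that generates `k` over the
kernel, and the kernel contains `X`. -/
def STAR {k : Type} [Field k] [Algebra ℂ k] (e : Dv k) (v : VF k) (b : ℂ) (X : Set k) : Prop :=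
  ∃ (v' : VF k) (y : k) (g : ℚ), g ≠ 0 ∧ y ≠ 0 ∧ v - v' ∈ e.Ex ∧
    (g : k) * v' y = algebraMap ℂ k b * y ∧
    (∀ z : k, z ∈ Subfield.closure ({c | v' c = 0} ∪ {y})) ∧ ∀ c ∈ X, v' c = 0

/-- The residue of the primitive along the place `P` has a frame. -/
def Star {k : Type} [Field k] [Algebra ℂ k] (P : Pl (KK N) k) (f : Po N) (la : ℚ)
    (b : Polynomial ℂ) (β : Fin N → PX N (KK N)) : Prop :=
  ∃ (e : Dv k) (v : VF k), P.RsD (dvf f la) e ∧ P.Res (dvf f la) (bf la β) v ∧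
    STAR e v (b.eval (-(la : ℂ))) (Set.range fun l => P.π (xx N l))

/-! ### Chambers -/

/-- `d` is an interior point of `U`. -/
def Inn {J : Type} (U : Set (J → ℚ)) (d : J → ℚ) : Prop := ∀ u, ∃ δ : ℚ, 0 < δ ∧ d + δ • u ∈ U

/-- A cone `U` of divisors on `M` whose mobile parts are given by the linear map `P` to a model
`W`; the segment `nu + s h` enters `U` at time `t`. -/
structure Ch (f : Po N) (M : Mod N) where
  W : Mod N
  D : Dom W M
  U : Set (M.J → ℚ)
  P : (M.J → ℚ) →ₗ[ℚ] (W.J → ℚ)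
  h : M.J → ℚ
  t : ℚ
  ok : W.OK f
  add : ∀ d ∈ U, ∀ d' ∈ U, d + d' ∈ U
  smul : ∀ d ∈ U, ∀ c : ℚ, 0 < c → c • d ∈ U
  free : ∀ d ∈ U, ∃ (m : ℕ) (c : M.J → ℤ) (c' : W.J → ℤ), 0 < m ∧ M.q c = m • d ∧
    W.q c' = m • P d ∧ W.Free c' ∧ ∀ n : ℕ, M.H (n • c) = W.H (n • c')
  amp : M.AmpQ h
  t0 : 0 ≤ t
  mem : M.nu + t • h ∈ U
  inn : ∃ s : ℚ, t < s ∧ Inn U (M.nu + s • h)

namespace Ch

variable {f : Po N} {M : Mod N} (C : Ch f M)

/-- The divisor `j` is not contracted in the chamber. -/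
def Alive (j : M.J) : Prop := ∀ d, C.P d (C.D.e j) = d j

/-- Just before time `t` all sections vanish along the divisor `o`. -/
def Dead (o : M.J) : Prop :=
  ∃ s₀ : ℚ, s₀ < C.t ∧ ∀ s : ℚ, s₀ < s → s < C.t → ∀ (m : ℕ) (c : M.J → ℤ), 0 < m →
    M.q c = m • (M.nu + s • C.h) → ∀ g ∈ M.H c, g ∈ (M.v o).F (1 - c o)

/-- The segment enters through the interior of the facet `w = 0`. -/
structure Facet (w : (M.J → ℚ) →ₗ[ℚ] ℚ) : Prop where
  pos : 0 < w C.h
  zero : w (M.nu + C.t • C.h) = 0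
  aa : w (M.q M.aa) = 0
  mem : ∀ u, w u = 0 → ∃ δ : ℚ, 0 < δ ∧ M.nu + C.t • C.h + δ • u ∈ C.U

/-- The divisor `o` dies on a wall. -/
def Death (o : M.J) : Prop := 0 < C.t ∧ (∃ w, C.Facet w) ∧ C.Dead o

end Ch

/-! ### The statements of the blocks -/

open AlgebraicGeometry in
/-- The zeta function can be computed on every model. -/
def SDAT : Prop := ∀ (N : ℕ) (f : Po N) (Y : Scheme.{0}) (π : Y ⟶ H95.Aff N) (J : Type) [Fintype J]
  (E : J → Set Y) (a k : J → ℕ) (χ : Set Y → ℤ), H95.IsLogRes (Ideal.span {f}) π E a k →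
  H95.IsChi π χ → ∃ χ₀, IsEu χ₀ ∧ ∀ M : Mod N, M.OK f → H95.zeta E a k χ = M.zeta χ₀

/-- Integration by parts. -/
def SBS : Prop := ∀ (N : ℕ) (f : Po N) (b : Polynomial ℂ), f ≠ 0 → H10.IsBS ![f] b →
  ∃ β Q, BSd f b β Q

/-- Every divisor dies on a wall or survives. -/
def SCH : Prop := ∀ (f : Po 3) (M : Mod 3), f ≠ 0 → M.OK f → ∀ o : M.J,
  ∃ C : Ch f M, C.Alive o ∧ (C.Death o ∨ C.t = 0)

/-- The frame of a divisor that dies. -/
def SDEATH : Prop := ∀ (f : Po 3) (la : ℚ) (b : Polynomial ℂ) (β : Fin 3 → PX 3 (KK 3))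
  (Q : PX 3 (KK 3)) (M : Mod 3) (o : M.J) (C : Ch f M), Hyp f la b β Q → M.OK f →
  M.ex la o = 0 → C.Alive o → C.Death o → Star (M.v o).pl f la b β

/-- The frame of a divisor that survives. -/
def SLAST : Prop := ∀ (f : Po 3) (la : ℚ) (b : Polynomial ℂ) (β : Fin 3 → PX 3 (KK 3))
  (Q : PX 3 (KK 3)) (M : Mod 3) (o : M.J) (C : Ch f M), Hyp f la b β Q → M.OK f →
  M.ex la o = 0 → C.Alive o → C.t = 0 → C.Dead o → Star (M.v o).pl f la b β

/-- A divisor that is alive beyond the log canonical divisor gives a root. -/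
def SR1 : Prop := ∀ (N : ℕ) (f : Po N) (la : ℚ) (b : Polynomial ℂ) (M : Mod N) (o : M.J)
  (h : M.J → ℚ) (s : ℚ) (m : ℕ) (c : M.J → ℤ), f ≠ 0 → H10.IsBS ![f] b → M.OK f →
  M.ex la o = 0 → M.AmpQ h → s < 0 → 0 < m → M.q c = m • (M.nu + s • h) →
  ∀ g ∈ M.H c, g ∉ (M.v o).F (1 - c o) → b.eval (-(la : ℂ)) = 0

/-- Frames kill the pole. -/
def SBOOK : Prop := ∀ (f : Po 3) (la : ℚ) (b : Polynomial ℂ) (β : Fin 3 → PX 3 (KK 3))
  (Q : PX 3 (KK 3)) (M : Mod 3) (χ : H36.Chi), Hyp f la b β Q → M.OK f → IsEu χ →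
  (∀ o, M.ex la o = 0 → Star (M.v o).pl f la b β) → ¬(M.zeta χ).denom.IsRoot (-(la : ℂ))

open AlgebraicGeometry in
/-- The theorem. -/
def Main : Prop := ∀ (f : MvPolynomial (Fin 3) ℂ) (b : Polynomial ℂ) (Y : Scheme.{0})
  (π : Y ⟶ H95.Aff 3) (J : Type) [Fintype J] (E : J → Set Y) (a k : J → ℕ) (χ : Set Y → ℤ),
  f ≠ 0 → H10.IsBS ![f] b → H95.IsLogRes (Ideal.span {f}) π E a k → H95.IsChi π χ →
  ∀ s : ℂ, (H95.zeta E a k χ).denom.IsRoot s → b.IsRoot s

end

end Pool.Agent.MP_ee8c61_ag.M3
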