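import Pool.Agent.MP_ee8c61_ag.M3.FDefs

/-! The frames from the surface data: the statements and the case distinction. -/

namespace Pool.Agent.MP_ee8c61_ag.M3

open M3RESID M3F H59

/-! ### Statements on the surface -/

/-- A statement about all surface data. -/
def AllS (p : ∀ {L : Type} [Field L] [Algebra ℂ L], SD L → Prop) : Prop :=
  ∀ (L : Type) [Field L] [Algebra ℂ L] (D : SD L), D.OK → p D

/-- Contraction to a curve on a wall. -/
def LF1 : Prop := AllS fun D => 0 < D.t0 → ¬D.Pt → D.St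

/-- Contraction to a point on a wall, with a pencil. -/
def LF2 : Prop := AllS fun D => 0 < D.t0 → D.Pt → D.Pcl → D.St

/-- Contraction to a curve at time zero. -/
def LF3 : Prop := AllS fun D => D.t0 = 0 → D.CC → D.Zc → ¬D.Pt → D.St

/-- Contraction to a point on a wall, one neighbour. -/
def LVc : Prop := AllS fun D => 0 < D.t0 → D.Pt → D.One → D.St

/-- Contraction to a point at time zero. -/
def LVz : Prop := AllS fun D => D.t0 = 0 → D.CC → D.Zc → D.Pt → D.St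

/-- The step of the maximum argument. -/
def LMX : Prop := AllS fun D => D.t0 = 0 → D.Z0 → D.Bad → ∃ Γ j l, Cv D.x Γ ∧
  ¬Null D.x D.S1 Γ ∧ D.Core j Γ ∧ D.al j = 0 ∧ 0 < D.h j ∧ NC Γ (D.x l)

/-! ### Statements on the datum of a divisor -/

/-- The standing hypotheses. -/
structure Sit (f : Po 3) (la : ℚ) (b : Polynomial ℂ) (β : Fin 3 → PX 3 (KK 3)) (Q : PX 3 (KK 3))
    (M : Mod 3) (C : Ch f M) (o : M.J) : Prop where
  hyp : Hyp f la b β Q
  ok : M.OK f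
  zero : M.ex la o = 0
  alive : C.Alive o

/-- A statement about the data of all alive divisors of exponent zero. -/
def AllI (p : ∀ {f : Po 3} {M : Mod 3} (C : Ch f M) (_ : ℚ) (_ : Polynomial ℂ) (o : M.J),
    Ch.AV (M := M) o → C.AS o → Prop) : Prop :=
  ∀ (f : Po 3) (la : ℚ) (b : Polynomial ℂ) (β : Fin 3 → PX 3 (KK 3)) (Q : PX 3 (KK 3))
    (M : Mod 3) (C : Ch f M) (o : M.J) (X : Ch.AV (M := M) o) (Y : C.AS o),
    Sit f la b β Q M C o → X.OK f la β → Y.OK la → p C la b o X Y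

def IAV : Prop := ∀ (f : Po 3) (la : ℚ) (b : Polynomial ℂ) (β : Fin 3 → PX 3 (KK 3))
  (Q : PX 3 (KK 3)) (M : Mod 3) (o : M.J), Hyp f la b β Q → M.OK f → M.ex la o = 0 →
  ∃ X : Ch.AV (M := M) o, X.OK f la β

def IAS : Prop := ∀ (f : Po 3) (la : ℚ) (M : Mod 3) (C : Ch f M) (o : M.J), M.OK f →
  M.ex la o = 0 → ∃ Y : C.AS o, Y.OK la

def IVol : Prop := AllI fun C la b o X Y => (C.sd la b o X Y).Vol

def ISem : Prop := AllI fun C la b o X Y => (C.sd la b o X Y).Sem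

def INul : Prop := AllI fun C la b o X Y => (C.sd la b o X Y).Nul

def IBig : Prop := AllI fun C la b o X Y => (C.sd la b o X Y).Big

def ISmall : Prop := AllI fun C la b o X Y => C.Dead o → (C.sd la b o X Y).Small

def ISgn : Prop := AllI fun C la b o X Y => (C.sd la b o X Y).Sgn

def IKvl : Prop := AllI fun C la b o X Y => (C.sd la b o X Y).Kvl

def IPen : Prop := AllI fun C la b o X Y => C.Death o → (C.sd la b o X Y).Pen

def ICC : Prop := AllI fun C la b o X Y => C.t = 0 → (C.sd la b o X Y).CC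

def IZ0 : Prop := AllI fun C la b o X Y => C.t = 0 → (C.sd la b o X Y).Z0

/-- A core curve that is not complete is an intersection curve. -/
def IT1 : Prop := AllI fun {_ M} C la b o X Y => ∀ Γ (j : C.Nb o) l,
  Cv (C.sd la b o X Y).x Γ → (C.sd la b o X Y).Core j Γ → NC Γ ((C.sd la b o X Y).x l) →
  M.NCp o j.1

/-- An intersection curve that is not complete is a curve on the surface. -/
def IT2 : Prop := AllI fun {_ M} C la b o X Y => ∀ j, j ≠ o → M.ex la j = 0 → M.NCp o j →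
  (C.sd la b o X Y).Bad

/-- All rows. -/
structure FRows : Prop where
  f1 : LF1
  f2 : LF2
  f3 : LF3
  vc : LVc
  vz : LVz
  mx : LMX
  av : IAV
  as : IAS
  vol : IVol
  sem : ISem
  nul : INul
  big : IBig
  small : ISmall
  sgn : ISgn
  kvl : IKvl
  pen : IPen
  cc : ICC
  z0 : IZ0
  t1 : IT1
  t2 : IT2

variable {f : Po 3} {la : ℚ} {b : Polynomial ℂ} {β : Fin 3 → PX 3 (KK 3)} {Q : PX 3 (KK 3)}
  {M : Mod 3} {C : Ch f M} {o : M.J}

theorem FRows.sd_ok (R : FRows) (h : Sit f la b β Q M C o) (hd : C.Dead o)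
    {X : Ch.AV (M := M) o} {Y : C.AS o} (hX : X.OK f la β) (hY : Y.OK la) :
    (C.sd la b o X Y).OK :=
  ⟨R.vol _ _ _ _ _ _ _ _ _ _ h hX hY, R.sem _ _ _ _ _ _ _ _ _ _ h hX hY,
    R.nul _ _ _ _ _ _ _ _ _ _ h hX hY, R.big _ _ _ _ _ _ _ _ _ _ h hX hY,
    R.small _ _ _ _ _ _ _ _ _ _ h hX hY hd, R.sgn _ _ _ _ _ _ _ _ _ _ h hX hY,
    R.kvl _ _ _ _ _ _ _ _ _ _ h hX hY⟩

theorem sdeath_of (R : FRows) : SDEATH := by
  intro f la b β Q M o C H hM ho hA hD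
  have h : Sit f la b β Q M C o := ⟨H, hM, ho, hA⟩
  obtain ⟨X, hX⟩ := R.av f la b β Q M o H hM ho
  obtain ⟨Y, hY⟩ := R.as f la M C o hM ho
  have hO := R.sd_ok h hD.2.2 hX hY
  refine ⟨X.d, X.v, hX.rd, hX.rv, (?_ : (C.sd la b o X Y).St)⟩
  by_cases hp : (C.sd la b o X Y).Pt
  · exact (R.pen _ _ _ _ _ _ _ _ _ _ h hX hY hD hp).elim (R.f2 _ _ hO hD.1 hp)
      (R.vc _ _ hO hD.1 hp)
  · exact R.f1 _ _ hO hD.1 hp

theorem dead_of (hR : SR1) (H : Hyp f la b β Q) (hM : M.OK f) (ho : M.ex la o = 0)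
    (ht : C.t = 0) : C.Dead o := by
  refine ⟨-1, by rw [ht]; norm_num, fun s _ h2 m c hm hc g hg => ?_⟩
  by_contra h3
  exact H.nr (hR 3 f _ b M o C.h s m c H.ne H.isbs hM ho C.amp (ht ▸ h2) hm hc g hg h3)

theorem no_ncp (R : FRows) (hR : SR1) (H : Hyp f la b β Q) (hM : M.OK f) (ht : C.t = 0) :
    ∀ o, M.ex la o = 0 → C.Alive o → ∀ j, j ≠ o → M.ex la j = 0 → ¬M.NCp o j := by
  classical
  by_contra! hn
  obtain ⟨o₀, h₀⟩ := hn
  obtain ⟨o, ho, hm⟩ := Finset.exists_max_image (Finset.univ.filter fun o =>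
    M.ex la o = 0 ∧ C.Alive o ∧ ∃ j, j ≠ o ∧ M.ex la j = 0 ∧ M.NCp o j)
    (fun o => C.h o / M.a o) ⟨o₀, by simpa using h₀⟩
  obtain ⟨h1, h2, j, h3, h4, h5⟩ := (Finset.mem_filter.1 ho).2
  have h : Sit f la b β Q M C o := ⟨H, hM, h1, h2⟩
  obtain ⟨X, hX⟩ := R.av f la b β Q M o H hM h1
  obtain ⟨Y, hY⟩ := R.as f la M C o hM h1
  obtain ⟨Γ, k, l, g1, -, g3, g4, g5, g6⟩ := R.mx _ _ (R.sd_ok h (dead_of hR H hM h1 ht) hX hY) ht
    (R.z0 _ _ _ _ _ _ _ _ _ _ h hX hY ht) (R.t2 _ _ _ _ _ _ _ _ _ _ h hX hY j h3 h4 h5)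
  obtain ⟨V, v1, v2, v3, v4⟩ := R.t1 _ _ _ _ _ _ _ _ _ _ h hX hY Γ k l g1 g3 g6
  have h6 := hm k.1 (Finset.mem_filter.2
    ⟨Finset.mem_univ _, g4, k.2.2, o, k.2.1.symm, h1, V, v1, v3, v2, v4⟩)
  have h7 : (0 : ℚ) < C.h k.1 - C.h o / M.a o * M.a k.1 := by
    simpa [Ch.sd, Ch.hp, Mod.q, Mod.aa] using g5
  have h8 : (0 : ℚ) < M.a k.1 := Nat.cast_pos.2 (hM.pos _)
  rw [div_le_iff₀ h8] at h6
  linarith

theorem slast_of (R : FRows) (hR : SR1) : SLAST := by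
  intro f la b β Q M o C H hM ho hA ht hD
  have h : Sit f la b β Q M C o := ⟨H, hM, ho, hA⟩
  obtain ⟨X, hX⟩ := R.av f la b β Q M o H hM ho
  obtain ⟨Y, hY⟩ := R.as f la M C o hM ho
  have hO := R.sd_ok h hD hX hY
  have hc := R.cc _ _ _ _ _ _ _ _ _ _ h hX hY ht
  have hz : (C.sd la b o X Y).Zc := fun Γ j g1 g2 g3 g4 =>
    R.z0 _ _ _ _ _ _ _ _ _ _ h hX hY ht Γ j g1 g2 g3 g4 fun l g5 =>
      no_ncp R hR H hM ht o ho hA j.1 j.2.1 g4 (R.t1 _ _ _ _ _ _ _ _ _ _ h hX hY Γ j l g1 g3 g5)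
  refine ⟨X.d, X.v, hX.rd, hX.rv, (?_ : (C.sd la b o X Y).St)⟩
  by_cases hp : (C.sd la b o X Y).Pt
  · exact R.vz _ _ hO ht hc hz hp
  · exact R.f3 _ _ hO ht hc hz hp

end Pool.Agent.MP_ee8c61_ag.M3
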