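import Pool.Agent.MP_ee8c61_ag.M3.Defs
import Pool.Agent.MP_ee8c61_ag.M3F.Spec

/-!
The surface datum of a divisor in a chamber: everything is read on the divisorial valuations of
the residue field.
-/

namespace Pool.Agent.MP_ee8c61_ag.M3

open M3RESID M3F Finset

noncomputable section

section Surf

variable {L : Type} [Field L] [Algebra ℂ L]

/-- `g` is regular and not constant on the curve `Γ`. -/
def NC (Γ : DV L) (g : L) : Prop := g ∈ Γ.F 0 ∧ ∀ c : ℂ, g - algebraMap ℂ L c ∉ Γ.F 1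

/-- Divisorial valuations over the base `x`. -/
structure Cv (x : Fin 3 → L) (Γ : DV L) : Prop where
  sur : ∃ π, Γ.v π = 1
  bas : ∀ l, x l ∈ Γ.F 0
  nc : ∃ g, NC Γ g

/-- `s` generates the family `S` at `Γ`. -/
def GnS (S : Finset L) (Γ : DV L) (s : L) : Prop := s ∈ S ∧ s ≠ 0 ∧ ∀ s' ∈ S, s' / s ∈ Γ.F 0

/-- The divisor generated by `S` has coefficient `n` at `Γ`. -/
def Dg (S : Finset L) (Γ : DV L) (n : ℚ) : Prop := ∃ s, GnS S Γ s ∧ (Γ.v s : ℚ) = -n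

/-- The curve `Γ` is contracted by `x` and the family `S`. -/
def Null (x : Fin 3 → L) (S : Finset L) (Γ : DV L) : Prop :=
  (∀ l, ¬NC Γ (x l)) ∧ ∀ s, GnS S Γ s → ∀ s' ∈ S, ¬NC Γ (s' / s)

/-- The field generated by `x` and the ratios of `S`. -/
def RF (x : Fin 3 → L) (S : Finset L) : IntermediateField ℂ L :=
  IntermediateField.adjoin ℂ (Set.range x ∪ {g | ∃ s ∈ S, ∃ s' ∈ S, g = s' / s})

/-- The data on the surface. `A` is the set of the other alive divisors. -/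
structure SD (L : Type) [Field L] [Algebra ℂ L] where
  A : Type
  fA : Fintype A
  x : Fin 3 → L
  C : Co L 2
  q : ℕ
  ψ : L
  d : Dv L
  v : VF L
  b : ℂ
  al : A → ℚ
  h : A → ℚ
  β : A → DV L → ℚ
  ex : DV L → ℚ
  t0 : ℚ
  t1 : ℚ
  ε : ℚ
  m : ℕ
  S0 : Finset L
  S1 : Finset L
  Sj : A → Finset L

attribute [instance] SD.fA

namespace SD

variable (D : SD L)

/-- The trace of the mobile part of the exponents. -/
def α (Γ : DV L) : ℚ := ∑ j, D.al j * D.β j Γ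

/-- The trace of the mobile part at time `t`. -/
def th (t : ℚ) (Γ : DV L) : ℚ := ∑ j, (D.al j + t * D.h j) * D.β j Γ

/-- The curve is the trace of the alive divisor `j`. -/
def Core (j : D.A) (Γ : DV L) : Prop :=
  D.ex Γ = D.α Γ ∧ D.β j Γ = 1 ∧ ∀ k, k ≠ j → D.β k Γ = 0

/-- The volume form and the primitive. -/
structure Vol : Prop where
  srf : Srf D.C D.d D.v D.b
  q0 : 0 < D.q
  ψ0 : D.ψ ≠ 0
  rat : ∀ X, D.d.δ X = D.C.dv.δ X + X D.ψ / (D.q * D.ψ)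
  exp : ∀ Γ, Cv D.x Γ → Exp D.d Γ (D.ex Γ)

/-- The semiample families. -/
structure Sem : Prop where
  t0 : 0 ≤ D.t0
  t1 : D.t0 < D.t1
  ε : 0 < D.ε
  m : 0 < D.m
  dg0 : ∀ Γ, Cv D.x Γ → Dg D.S0 Γ (D.m * D.th D.t0 Γ)
  dg1 : ∀ Γ, Cv D.x Γ → Dg D.S1 Γ (D.m * D.th D.t1 Γ)
  dgj : ∀ j Γ, Cv D.x Γ → Dg (D.Sj j) Γ (D.m * (D.th D.t1 Γ + D.ε * D.β j Γ))

/-- Curves that are contracted inside the chamber are contracted on its closure. -/
def Nul : Prop := ∀ Γ, Cv D.x Γ → Null D.x D.S1 Γ → Null D.x D.S0 Γ ∧ ∀ j, Null D.x (D.Sj j) Γ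

/-- The family inside the chamber does not contract the surface. -/
def Big : Prop := ∀ X : VF L, (∀ g ∈ RF D.x D.S1, X g = 0) → X = 0

/-- The family on the wall contracts the surface. -/
def Small : Prop := ∃ X : VF L, X ≠ 0 ∧ ∀ g ∈ RF D.x D.S0, X g = 0

/-- Signs. -/
def Sgn : Prop := ∀ Γ, Cv D.x Γ →
  (∀ j, 0 ≤ D.β j Γ) ∧ D.α Γ ≤ D.ex Γ ∧ (D.ex Γ = D.α Γ → ∃ j, 0 < D.β j Γ)

/-- The curves that are not contracted. -/
def Kvl : Prop := ∀ Γ, Cv D.x Γ → ¬Null D.x D.S1 Γ →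
  (∃ j, D.Core j Γ) ∨ ((∀ j, D.β j Γ = 0) ∧ Hon D.d D.v Γ (D.ex Γ))

/-- The surface is contracted to a point on the wall. -/
def Pt : Prop := ∀ g ∈ RF D.x D.S0, ∀ X : VF L, X g = 0

/-- A pencil whose contracted horizontal curves have log discrepancy zero. -/
def Pcl : Prop := ∃ φ, (∃ X : VF L, X φ ≠ 0) ∧
  ∀ Γ, Cv D.x Γ → Null D.x D.S1 Γ → NC Γ φ → D.ex Γ = D.α Γ

/-- At most one divisor has traces that are not contracted. -/
def One : Prop := ∀ j k Γ Γ', Cv D.x Γ → ¬Null D.x D.S1 Γ → D.β j Γ ≠ 0 → Cv D.x Γ' →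
  ¬Null D.x D.S1 Γ' → D.β k Γ' ≠ 0 → j = k

/-- A pencil, or one neighbour only. -/
def Pen : Prop := D.Pt → D.Pcl ∨ D.One

/-- Local primitives in the lattice of exponents at least `α`. -/
def CC : Prop := ∃ (R : Finset L) (θ : L → L), (∃ r ∈ R, r ≠ 0) ∧ ∀ Γ, Cv D.x Γ → ∀ r, GnS R Γ r →
  (∃ n : ℤ, D.α Γ - D.ex Γ ≤ n ∧ D.v - D.d.B (θ r • D.C.D 0) (D.C.D 1) ∈ LV Γ n) ∧
  ∀ r', GnS R Γ r' → θ r = θ r' ∨ D.q * D.α Γ ≤ D.q * Γ.v (θ r - θ r') + Γ.v D.ψ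

/-- Complete core curves of exponent zero. -/
def Z0 : Prop := ∀ Γ j, Cv D.x Γ → ¬Null D.x D.S1 Γ → D.Core j Γ → D.al j = 0 →
  (∀ l, ¬NC Γ (D.x l)) → Null D.x D.S0 Γ ∧ ∃ s ∈ D.S0, NC Γ s

/-- Core curves of exponent zero. -/
def Zc : Prop := ∀ Γ j, Cv D.x Γ → ¬Null D.x D.S1 Γ → D.Core j Γ → D.al j = 0 →
  Null D.x D.S0 Γ ∧ ∃ s ∈ D.S0, NC Γ s

/-- A curve of exponent zero that is not complete. -/
def Bad : Prop := ∃ Γ l, Cv D.x Γ ∧ NC Γ (D.x l) ∧ D.ex Γ = 0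

/-- All properties that hold in both cases. -/
structure OK : Prop where
  vol : D.Vol
  sem : D.Sem
  nul : D.Nul
  big : D.Big
  small : D.Small
  sgn : D.Sgn
  kvl : D.Kvl

/-- The conclusion. -/
def St : Prop := STAR D.d D.v D.b (Set.range D.x)

end SD

end Surf

/-! ### The datum of a divisor -/

section Lift

variable {K k : Type} [Field K] [Algebra ℂ K] [Field k] [Algebra ℂ k]

theorem pl_one (P : Pl K k) : P.π 1 = 1 := by simpa using (P.cst 1).2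

theorem pl_zero (P : Pl K k) : P.π 0 = 0 := by simpa using (P.cst 0).2

theorem pl_neg (P : Pl K k) {g : K} (hg : g ∈ P.o.F 0) : P.π (-g) = -P.π g := by
  have := P.add g hg (-g) (neg_mem hg)
  rw [add_neg_cancel, pl_zero] at this
  exact (neg_eq_of_add_eq_zero_right this.symm).symm

/-- The composite of the place `P` with a valuation of its residue field. -/
def lift (P : Pl K k) (Γ : DV k) : ValuationSubring K where
  carrier := {g | g ∈ P.o.F 0 ∧ P.π g ∈ Γ.F 0}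
  mul_mem' := fun {a b} ha hb => ⟨by simpa using P.o.F_mul ha.1 hb.1, by
    rw [P.mul a ha.1 b hb.1]
    simpa using Γ.F_mul ha.2 hb.2⟩
  one_mem' := ⟨Or.inr P.o.one.ge, by rw [pl_one]; exact Or.inr Γ.one.ge⟩
  add_mem' := fun {a b} ha hb => ⟨add_mem ha.1 hb.1, by
    rw [P.add a ha.1 b hb.1]
    exact add_mem ha.2 hb.2⟩
  zero_mem' := ⟨zero_mem _, by rw [pl_zero]; exact zero_mem _⟩
  neg_mem' := fun {a} ha => ⟨neg_mem ha.1, by rw [pl_neg P ha.1]; exact neg_mem ha.2⟩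
  mem_or_inv_mem' := fun g => by
    by_cases h0 : g = 0
    · exact Or.inl ⟨h0 ▸ zero_mem _, by rw [h0, pl_zero]; exact zero_mem _⟩
    rcases lt_trichotomy (P.o.v g) 0 with h | h | h
    · have h1 : g⁻¹ ∈ P.o.F 1 := Or.inr (by rw [P.o.inv]; omega)
      have h2 : g⁻¹ ∈ P.o.F 0 := P.o.F_anti zero_le_one h1
      exact Or.inr ⟨h2, by rw [(P.ker _ h2).2 h1]; exact zero_mem _⟩
    · have h1 : g ∈ P.o.F 0 := Or.inr h.ge
      have h2 : g⁻¹ ∈ P.o.F 0 := Or.inr (by rw [P.o.inv]; omega)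
      have h3 := P.mul g h1 g⁻¹ h2
      rw [mul_inv_cancel₀ h0, pl_one] at h3
      rcases Γ.O.mem_or_inv_mem (P.π g) with h4 | h4
      · exact Or.inl ⟨h1, h4⟩
      · exact Or.inr ⟨h2, by rw [← eq_inv_of_mul_eq_one_right h3.symm] at h4; exact h4⟩
    · have h1 : g ∈ P.o.F 1 := Or.inr h
      have h2 : g ∈ P.o.F 0 := P.o.F_anti zero_le_one h1
      exact Or.inl ⟨h2, by rw [(P.ker _ h2).2 h1]; exact zero_mem _⟩

theorem mem_lift {P : Pl K k} {Γ : DV k} {g : K} :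
    g ∈ lift P Γ ↔ g ∈ P.o.F 0 ∧ P.π g ∈ Γ.F 0 := Iff.rfl

end Lift

open Classical in
/-- The order along `Γ` of the trace of the divisor `i`; it is `0` for the divisor of `P`. -/
def Mod.tr {N : ℕ} (W : Mod N) {k : Type} [Field k] [Algebra ℂ k] (P : Pl (KK N) k) (Γ : DV k)
    (i : W.J) : ℤ :=
  if h : ∃ b, W.In b (lift P Γ) then Γ.v (P.π (W.η h.choose i)) else 0

/-- Two divisors meet along a curve that is not complete. -/
def Mod.NCp {N : ℕ} (M : Mod N) (o j : M.J) : Prop :=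
  ∃ V, Ov V ∧ M.Thru V o ∧ M.Thru V j ∧ ∃ l, ∀ c : ℂ, Un V (xx N l - algebraMap ℂ (KK N) c)

namespace Ch

variable {f : Po 3} {M : Mod 3} (C : Ch f M)

/-- The ample direction, normalised at `o`. -/
def hp (o : M.J) : M.J → ℚ := C.h - (C.h o / M.a o) • M.q M.aa

/-- The point of the segment, normalised at `o`. -/
def pt (la : ℚ) (o : M.J) (t : ℚ) : M.J → ℚ := M.ex la + t • C.hp o

/-- The other alive divisors. -/
def Nb (o : M.J) : Type := {j : M.J // j ≠ o ∧ C.Alive j}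

instance (o : M.J) : Fintype (C.Nb o) := by
  classical
  exact Subtype.fintype _

/-- The residue of the volume form and of the primitive. -/
structure AV (o : M.J) where
  Co : Co (M.v o).kf 2
  q : ℕ
  ψ : (M.v o).kf
  d : Dv (M.v o).kf
  v : VF (M.v o).kf

/-- Generators of the semiample divisors. -/
structure AS (o : M.J) where
  t1 : ℚ
  ε : ℚ
  m : ℕ
  c0 : C.W.J → ℤ
  c1 : C.W.J → ℤ
  cj : M.J → C.W.J → ℤ
  T0 : Finset (KK 3)
  T1 : Finset (KK 3)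
  Tj : M.J → Finset (KK 3)

structure AV.OK {o : M.J} (X : AV (M := M) o) (f : Po 3) (la : ℚ) (β : Fin 3 → H59.PX 3 (KK 3)) :
    Prop where
  fin : FiniteDimensional (IntermediateField.adjoin ℂ (Set.range X.Co.z)) (M.v o).kf
  q0 : 0 < X.q
  ψ0 : X.ψ ≠ 0
  rat : ∀ Y, X.d.δ Y = X.Co.dv.δ Y + Y X.ψ / (X.q * X.ψ)
  rd : (M.v o).pl.RsD (dvf f la) X.d
  rv : (M.v o).pl.Res (dvf f la) (bf la β) X.v

variable {C} in
structure AS.OK {o : M.J} (X : C.AS o) (la : ℚ) : Prop where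
  t1 : C.t < X.t1
  inn : Inn C.U (M.nu + X.t1 • C.h)
  ε : 0 < X.ε
  inj : ∀ j, Inn C.U (M.nu + X.t1 • C.h + X.ε • M.q (M.e j))
  m : 0 < X.m
  c0 : C.W.q X.c0 = X.m • C.P (C.pt la o C.t)
  c1 : C.W.q X.c1 = X.m • C.P (C.pt la o X.t1)
  cj : ∀ j, C.W.q (X.cj j) = X.m • C.P (C.pt la o X.t1 + X.ε • M.q (M.e j))
  T0 : C.W.Gens X.c0 X.T0
  T1 : C.W.Gens X.c1 X.T1
  Tj : ∀ j, C.W.Gens (X.cj j) (X.Tj j)

open Classical in
/-- The surface datum of the divisor `o`. -/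
def sd (la : ℚ) (b : Polynomial ℂ) (o : M.J) (X : AV (M := M) o) (Y : C.AS o) : SD (M.v o).kf where
  A := C.Nb o
  fA := inferInstance
  x l := (M.v o).pl.π (xx 3 l)
  C := X.Co
  q := X.q
  ψ := X.ψ
  d := X.d
  v := X.v
  b := b.eval (-(la : ℂ))
  al j := M.ex la j.1
  h j := C.hp o j.1
  β j Γ := ∑ i, C.P (M.q (M.e j.1)) i * C.W.tr (M.v o).pl Γ i
  ex Γ := Classical.epsilon fun a : ℚ => Exp X.d Γ a
  t0 := C.t
  t1 := Y.t1
  ε := Y.ε
  m := Y.m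
  S0 := Y.T0.image (M.v o).pl.π
  S1 := Y.T1.image (M.v o).pl.π
  Sj j := (Y.Tj j.1).image (M.v o).pl.π

end Ch

end

end Pool.Agent.MP_ee8c61_ag.M3
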