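import Pool.Agent.MP_ee8c61_ag.M3K.RAv
import Pool.Agent.MP_ee8c61_ag.M3K.RBir
import Pool.Agent.MP_ee8c61_ag.M3K.RCn
import Pool.Agent.MP_ee8c61_ag.M3K.RCore
import Pool.Agent.MP_ee8c61_ag.M3K.RDt
import Pool.Agent.MP_ee8c61_ag.M3K.RHor
import Pool.Agent.MP_ee8c61_ag.M3K.RIso
import Pool.Agent.MP_ee8c61_ag.M3K.RKa
import Pool.Agent.MP_ee8c61_ag.M3K.RKb
import Pool.Agent.MP_ee8c61_ag.M3K.RLo
import Pool.Agent.MP_ee8c61_ag.M3K.RMo
import Pool.Agent.MP_ee8c61_ag.M3K.RNa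
import Pool.Agent.MP_ee8c61_ag.M3K.RNbr
import Pool.Agent.MP_ee8c61_ag.M3K.RNc
import Pool.Agent.MP_ee8c61_ag.M3K.RNg
import Pool.Agent.MP_ee8c61_ag.M3K.RNg0
import Pool.Agent.MP_ee8c61_ag.M3K.RNn
import Pool.Agent.MP_ee8c61_ag.M3K.RNode
import Pool.Agent.MP_ee8c61_ag.M3K.RNull
import Pool.Agent.MP_ee8c61_ag.M3K.RR0
import Pool.Agent.MP_ee8c61_ag.M3K.RReal
import Pool.Agent.MP_ee8c61_ag.M3K.RRf
import Pool.Agent.MP_ee8c61_ag.M3K.RRv
import Pool.Agent.MP_ee8c61_ag.M3K.RSep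
import Pool.Agent.MP_ee8c61_ag.M3K.RTc
import Pool.Agent.MP_ee8c61_ag.M3K.RTr
import Pool.Agent.MP_ee8c61_ag.M3K.RTr4
import Pool.Agent.MP_ee8c61_ag.M3K.RUl
import Pool.Agent.MP_ee8c61_ag.M3K.RUp
import Pool.Agent.MP_ee8c61_ag.M3K.RWall
import Pool.Agent.MP_ee8c61_ag.M3K.RXi
import Pool.Agent.MP_ee8c61_ag.M3K.Out

/-! The output of the block of chambers. -/

namespace Pool.Agent.MP_ee8c61_ag.M3

open M3K

theorem kout_of (E : M3E.EOut) : KOut :=
  have ng0 := rowNg0 E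
  have th := rowTh E
  have ka := rowKa E ng0
  have kb := rowKb E ka
  have xi := rowXi E
  have rf := rowRf E th ka
  have sep := rowSep E
  have lo := rowLo E
  have ng := rowNg E lo
  have bir := rowBir E
  have rv := rowRv E rowUl rowTr rowTc bir
  have nn := rowNn E ng rv
  have r0 := rowR0 E
  have up := rowUp E rowTr rowTc
  have dt := rowDt E rowTr rowTc
  have core := rowCore E ng0 th ka kb up
  have mo := rowMo E th dt
  have cn := rowCn E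
  have av := rowAv E ng0
  have na := rowNa E ng0 ka kb cn av
  have nc := rowNc E ng0 th ka kb xi cn av
  have iso := rowIso E ng0 ka kb
  have node := rowNode E ka kb rf sep r0 na nc iso
  have hor := rowHor E ng0 ka kb mo node
  ⟨ng0, th, ka, kb, xi, rf, sep, rowReal E, rowUl, rowTr, rowTr4, rowTc, lo, ng, bir, rv, nn,
    rowWall E ka rowUl rowTr4 ng, r0, up, dt, core, mo, cn, av, na, nc, iso, node, hor,
    rowNull E ng0 ka rowTc hor, rowNbr E ng0, kvl_of E ng0 ka kb nn core⟩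

end Pool.Agent.MP_ee8c61_ag.M3
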