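import Pool.Agent.MP_ee8c61_ag.M3.Defs
import Pool.Agent.MP_ee8c61_ag.H95G.BS
import Pool.Agent.MP_ee8c61_ag.H95G.BS2
import Pool.Agent.MP_ee8c61_ag.H95G.PHI

/-! The functional equation in the field of rational functions. -/

namespace Pool.Agent.MP_ee8c61_ag.M3

open H59 hiding pd
open MvPolynomial
open M3B1 (pd)

theorem sbs : SBS := by
  intro N f b hf hb
  have e0 : ∀ p : Po N, aeval (xx N) p = ip N p := fun p =>
    DFunLike.congr_fun (algHom_ext fun i => aeval_X _ i : aeval (xx N) = ip N) p
  have hne : aeval (xx N) ((![f] : Fin 1 → Po N) 0) ≠ 0 := by rw [e0]; exact M3B1.ip_ne hf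
  obtain ⟨u, β, Q, h1, h2, h3⟩ := H95G.rowBS (H95G.rowBS2 H95G.rowPHI) (KK N) N 1 (xx N) ![f] b 0
    (pd N) (ip N).range hb M3B1.pd_X hne (fun l => ⟨_, rfl⟩)
    fun j => by rw [Subsingleton.elim j 0, div_self hne]; exact one_mem _
  have hi : Function.Injective (Option.map (Fin.castAdd 1) : Option (Fin N) → _) :=
    Option.map_injective (Fin.castAdd_injective _ _)
  let κ : PX (N + 1) (KK N) →ₐ[KK N] PX N (KK N) := killCompl hi
  have k1 : ∀ i, κ (X (Option.map (Fin.castAdd 1) i)) = X i := fun i => by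
    rw [← rename_X]
    exact killCompl_rename_app hi _
  have k2 : ∀ l P, κ (dpol _ (pd N l) P) = dpol _ (pd N l) (κ P) := fun l P => by
    ext e
    simp only [κ, coeff_killCompl, coeff_dpol]
  simp only [e0, Matrix.cons_val_fin_one] at h1 h3
  refine ⟨fun l => κ (β l), κ Q, ⟨u, fun l e => ?_⟩, fun e => ?_, ?_⟩
  · simpa only [κ, coeff_killCompl] using h1 l _
  · simpa only [κ, coeff_killCompl] using h2 _
  · have h4 := congrArg κ h3
    have k3 : κ (X none) = X none := k1 none
    have k4 : ∀ i, κ (X (some (Fin.castAdd 1 i))) = X (some i) := fun i => k1 (some i)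
    have k5 : κ (Polynomial.aeval (X none) b) = Polynomial.aeval (X none) b := by
      rw [← k3]
      exact (Polynomial.aeval_algHom_apply (κ.restrictScalars ℂ) (X none) b).symm
    rw [k5] at h4
    simpa only [map_add, map_sum, map_mul, algHom_C, k2, k3, k4, Fin.sum_univ_add,
      Fin.append_left, Fin.append_right, div_self (M3B1.ip_ne hf), Derivation.map_one_eq_zero,
      map_zero, mul_zero, Finset.sum_const_zero, add_zero, algebraMap_eq] using h4

end Pool.Agent.MP_ee8c61_ag.M3
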