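import Pool.Agent.MP_ee8c61_ag.M3.Top
import Pool.Agent.MP_ee8c61_ag.M3.RBS
import Pool.Agent.MP_ee8c61_ag.M3.RIT
import Pool.Agent.MP_ee8c61_ag.M3.FinK
import Pool.Agent.MP_ee8c61_ag.M3E.Final
import Pool.Agent.MP_ee8c61_ag.M3L.Final
import Pool.Agent.MP_ee8c61_ag.M3CH.Asm
import Pool.Agent.MP_ee8c61_ag.M3CH.RIAS
import Pool.Agent.MP_ee8c61_ag.M3CH.RISem
import Pool.Agent.MP_ee8c61_ag.M3FG.Asm
import Pool.Agent.MP_ee8c61_ag.M3S4.Asm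
import Pool.Agent.MP_ee8c61_ag.M3CP.Asm
import Pool.Agent.MP_ee8c61_ag.M3S.All
import Pool.Agent.MP_ee8c61_ag.M3F.LF
import Pool.Agent.MP_ee8c61_ag.M3J.Fin
import Pool.Agent.MP_ee8c61_ag.M3RESID.U3
import Pool.Agent.MP_ee8c61_ag.M3RESID.RCC
import Pool.Agent.MP_ee8c61_ag.M3I44.Sgn
import Pool.Agent.MP_ee8c61_ag.M3I44.Rows
import Pool.Agent.MP_ee8c61_ag.M3K.IPen
import Pool.Agent.MP_ee8c61_ag.M3KV.IKvl
import Pool.Agent.MP_ee8c61_ag.M3Z.IZ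
import Pool.Agent.MP_ee8c61_ag.M3BK.RAd
import Pool.Agent.MP_ee8c61_ag.M3BK.RBkl
import Pool.Agent.MP_ee8c61_ag.M3BK.RBook
import Pool.Agent.MP_ee8c61_ag.M3BK.RCht
import Pool.Agent.MP_ee8c61_ag.M3BK.RCmp
import Pool.Agent.MP_ee8c61_ag.M3BK.RCre2
import Pool.Agent.MP_ee8c61_ag.M3BK.RCross
import Pool.Agent.MP_ee8c61_ag.M3BK.RCrv
import Pool.Agent.MP_ee8c61_ag.M3BK.RCur
import Pool.Agent.MP_ee8c61_ag.M3BK.RDls
import Pool.Agent.MP_ee8c61_ag.M3BK.RFl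
import Pool.Agent.MP_ee8c61_ag.M3BK.RIntA
import Pool.Agent.MP_ee8c61_ag.M3BK.RIntB
import Pool.Agent.MP_ee8c61_ag.M3BK.RLau
import Pool.Agent.MP_ee8c61_ag.M3BK.RM0
import Pool.Agent.MP_ee8c61_ag.M3BK.RNrm
import Pool.Agent.MP_ee8c61_ag.M3BK.RP1
import Pool.Agent.MP_ee8c61_ag.M3BK.RPol
import Pool.Agent.MP_ee8c61_ag.M3BK.RPos
import Pool.Agent.MP_ee8c61_ag.M3BK.RPt
import Pool.Agent.MP_ee8c61_ag.M3BK.RRg
import Pool.Agent.MP_ee8c61_ag.M3BK.RSrf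
import Pool.Agent.MP_ee8c61_ag.M3BK.RSurf
import Pool.Agent.MP_ee8c61_ag.M3BK.RTh
import Pool.Agent.MP_ee8c61_ag.M3BK.RType
import Pool.Agent.MP_ee8c61_ag.M3BK.RUp
import Pool.Agent.MP_ee8c61_ag.M3BK.RXc

/-! The assembly of all blocks. -/

namespace Pool.Agent.MP_ee8c61_ag.M3

open M3E (eout)

theorem frows : FRows :=
  have K := kout_of eout
  have vol := M3RESID.rowIVol
  have kvl := M3KV.ikvl_of eout K
  ⟨M3F.lf1, M3F.lf2, M3F.lf3, M3J.lvc_of M3S.thmKVN, M3J.lvz_of M3S.thmKVN, M3F.lmx,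
    M3RESID.rowIAV, M3CH.rIAS eout, vol, M3CH.rISem eout, M3I44.inul_of eout K.ka,
    M3I44.ibig_of eout K.ka K.bir, M3I44.ismall_of eout K.ka K.wall, M3I44.rowSgn eout vol, kvl,
    M3K.ipen_of eout K vol kvl, M3RESID.rowICC eout, M3Z.rowZ0 eout vol,
    it1_of eout K.th K.ka K.kb K.up, it2_of eout⟩

theorem sch : SCH :=
  M3CH.ch_of (M3FG.sbox eout (M3S4.s4_of eout.bas (M3CP.cmp_of eout M3S.thmFnd) M3S.thmDESC))
    eout.bas eout.h eout.aq eout.dc eout.b1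

open M3BK M3L in
theorem sbook : SBOOK :=
  have a := rIntA scon schi
  have b := rIntB scon schi a
  have ex := rExc rNrm
  have cur := rCur rP1
  have pl := rPl rNrm rCrv rFl cur rP1
  have pt := rPt eout
  have sf := rSurf eout scon
  rBook eout scon schi a b rPol pt sf rAd (rSrf eout pt) (rCht eout scon schi)
    (rUp eout pt sf rAd)
    (rBkl scon a b rLau rNrm rCrv rPos (rType rNrm rCrv rFl)
      (rCmp scon a b rNrm ex (rDls scon schi a b rNrm rCrv rFl ex)) (rM0 scon schi a b rNrm) rFl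
      rP1 (rRg_of rPl scon schi a b rNrm rCrv rFl cur rP1) pl
      (rXc (rCre2 rNrm) rP1 (rTh rP1) (rSum rP1)))
    (rCross eout rFl rP1 (rTh rP1) (rSum rP1) pl rAd)

theorem main : Main :=
  top M3E.sb1 M3L.sdat_all sbs sch (M3L.sr1 eout) (sdeath_of frows) (slast_of frows (M3L.sr1 eout))
    sbook

end Pool.Agent.MP_ee8c61_ag.M3
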