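import Pool.Agent.MP_ee8c61_ag.M3.FKit
import Pool.Agent.MP_ee8c61_ag.M3K.Cst

/-! Contracted curves, double curves, and the traces of the mobile parts. -/

namespace Pool.Agent.MP_ee8c61_ag.M3

open M3RESID M3E M3K Finset

section Val

variable {K : Type} [Field K] [Algebra ℂ K] {V : ValuationSubring K}

variable {k : Type} [Field k] [Algebra ℂ k] {P : Pl K k}

theorem small_of_le (h : V ≤ P.o.O) {g : K} (hg : g ∈ P.o.F 1) : g ∈ V ∧ ¬Un V g := by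
  by_cases h0 : g = 0
  · exact h0 ▸ ⟨zero_mem _, not_un_zero⟩
  have h1 := hg.resolve_left h0
  have h2 : g⁻¹ ∉ V := fun e => by
    have := (h e).resolve_left (inv_ne_zero h0)
    rw [P.o.inv] at this
    omega
  exact ⟨(V.mem_or_inv_mem g).resolve_right h2, fun e => h2 e.2.2⟩

/-- A refinement of corank one comes from a discrete valuation of the residue field. -/
theorem exists_dv_of (h : V ≤ P.o.O) {y : K} (hy : y ∈ V) (h1 : ¬Un V y) (h2 : Un P.o.O y)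
    (h3 : ∀ g, Un P.o.O g → ∃ e : ℤ, Un V (g / y ^ e)) :
    ∃ Γ : DV k, Γ.v (P.π y) = 1 ∧ lift P Γ = V := by
  classical
  have a1 : ∀ g g' (e e' : ℤ), Un V (g / y ^ e) → Un V (g' / y ^ e') → g' - g ∈ P.o.F 1 →
      e = e' := fun g g' e e' a b c => by
    have d := small_of_le h (show (g' - g) / y ^ e ∈ P.o.F 1 by
      simpa [(P.o.un_O.1 (h2.zpow e)).2] using F_div c (y ^ e))
    have d2 := (a.add d.1 d.2).div b
    have d3 := (b.mul (un_one (V := V))).1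
    rw [show (g / y ^ e + (g' - g) / y ^ e) / (g' / y ^ e') = y ^ (e' - e) by
      have : g' ≠ 0 := fun e => b.1 (by simp [e])
      rw [zpow_sub₀ h2.1]
      field_simp [h2.1]
      ring, un_zpow_iff h2.1 hy h1] at d2
    omega
  have a2 : ∀ t : k, ∃ e : ℤ, (t = 0 → e = 0) ∧
      ∀ g, Un P.o.O g → P.π g = t → Un V (g / y ^ e) := fun t => by
    by_cases h0 : t = 0
    · exact ⟨0, fun _ => rfl, fun g a b => absurd (b.trans h0) ((pi_ne_iff a.2.1).2 a)⟩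
    obtain ⟨g, a, rfl⟩ := P.surj t
    obtain ⟨e, b⟩ := h3 g ((pi_ne_iff a).1 h0)
    refine ⟨e, fun c => absurd c h0, fun g' c d => ?_⟩
    obtain ⟨e', b'⟩ := h3 g' c
    rwa [a1 g g' e e' b b' (Pl.π_eq a c.2.1 d)]
  choose v hv0 hv using a2
  have a3 : ∀ g e, Un P.o.O g → Un V (g / y ^ e) → v (P.π g) = e := fun g e a b =>
    a1 g g _ _ (hv _ g a rfl) b (by simp)
  have a4 : ∀ t : k, t ≠ 0 → ∃ g, Un P.o.O g ∧ P.π g = t := fun t ht => by
    obtain ⟨g, a, rfl⟩ := P.surj t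
    exact ⟨g, (pi_ne_iff a).1 ht, rfl⟩
  have a5 : ∀ g (m : ℤ), Un P.o.O g → (m ≤ v (P.π g) ↔ g / y ^ m ∈ V) := fun g m a => by
    have b := hv _ g a rfl
    rw [show g / y ^ m = y ^ (v (P.π g) - m) * (g / y ^ v (P.π g)) by
      rw [zpow_sub₀ h2.1]
      field_simp [h2.1], b.mem_iff, zpow_mem_iff h2.1 hy h1]
    omega
  refine ⟨⟨v, hv0 0 rfl, fun t t' ht ht' => ?_, fun t t' ht ht' h4 => ?_⟩,
    a3 y 1 h2 (by simpa [h2.1] using un_one), ?_⟩
  · obtain ⟨g, a, rfl⟩ := a4 t ht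
    obtain ⟨g', a', rfl⟩ := a4 t' ht'
    rw [← P.mul g a.2.1 g' a'.2.1]
    refine a3 _ _ (a.mul a') ?_
    rw [zpow_add₀ h2.1, mul_div_mul_comm]
    exact (hv _ g a rfl).mul (hv _ g' a' rfl)
  · obtain ⟨g, a, rfl⟩ := a4 t ht
    obtain ⟨g', a', rfl⟩ := a4 t' ht'
    rw [← P.add g a.2.1 g' a'.2.1] at h4 ⊢
    rw [a5 _ _ ((pi_ne_iff (add_mem a.2.1 a'.2.1)).1 h4), add_div]
    exact add_mem ((a5 g _ a).1 (min_le_left _ _)) ((a5 g' _ a').1 (min_le_right _ _))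
  · ext g
    rw [mem_lift]
    refine ⟨fun ⟨a, b⟩ => ?_, fun a => ⟨h a, ?_⟩⟩
    · by_cases c : P.π g = 0
      · exact (small_of_le h ((P.ker g a).1 c)).1
      · simpa using (a5 g 0 ((pi_ne_iff a).1 c)).1 (b.resolve_left c)
    · by_cases c : P.π g = 0
      · exact Or.inl c
      · exact Or.inr ((a5 g 0 ((pi_ne_iff (h a)).1 c)).2 (by simpa using a))

end Val

variable {N : ℕ} {k : Type} [Field k] [Algebra ℂ k] {P : Pl (KK N) k} {Γ : DV k}

namespace Lv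

variable {W : Mod N} {o i : W.J} (h : Lv W o P Γ) {b : W.ι} {c : W.J → ℤ} {g : KK N}
include h

/-- The traces along a double curve. -/
theorem tr_cv (hC : M3E.Cv W) (hs : ∃ p, Γ.v p = 1) (hV : W.IsCv o i (lift P Γ)) (j : W.J) :
    W.tr P Γ j = if j = i then 1 else 0 := by
  split_ifs with e
  · subst e
    obtain ⟨b, hb⟩ := h.cov
    obtain ⟨p, hp⟩ := hs
    obtain ⟨g, hg, rfl⟩ := P.surj p
    have h0 : P.π g ≠ 0 := fun e => by simp [e, Γ.zero] at hp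
    have h1 := (pi_ne_iff hg).1 h0
    obtain ⟨e, h2, -⟩ := hC.un o j _ b hV hb g h1.1 (h.eq ▸ (P.o.un_O.1 h1).2)
    have h3 := h.η_un hb hV.1
    have h4 := h3.zpow e
    have h5 := (un_lift.1 h2).2.2
    rw [Pl.π_div hg h4.1 (P.o.un_O.1 h4).2, Γ.div h0 ((pi_ne_iff h4.2.1).2 h4),
      Pl.π_zpow h3.1 (P.o.un_O.1 h3).2, Γ.zpow, ← h.tr_eq hb, hp] at h5
    exact Int.eq_one_of_mul_eq_one_left (h.tr_nonneg j) (a := e) (by omega)
  · by_cases e' : j = o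
    · rw [e', h.tr_o]
    · exact (h.tr_zero_iff e').2 fun t => (hC.thru o i _ j hV t).elim e' e

theorem sum_cv {R : Type} [CommRing R] (hC : M3E.Cv W) (hs : ∃ p, Γ.v p = 1)
    (hV : W.IsCv o i (lift P Γ)) (y : W.J → R) : ∑ j, y j * W.tr P Γ j = y i := by
  classical
  rw [sum_eq_single i (fun j _ e => by simp [h.tr_cv hC hs hV, e]) (by simp)]
  simp [h.tr_cv hC hs hV]

theorem sum_off {R : Type} [CommRing R] (hn : ∀ j, j ≠ o → ¬W.Thru (lift P Γ) j) (y : W.J → R) :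
    ∑ j, y j * W.tr P Γ j = 0 := sum_eq_zero fun j _ => by
  by_cases e : j = o
  · simp [e, h.tr_o]
  · simp [(h.tr_zero_iff e).2 (hn j e)]

theorem nc_x (l : Fin N) : NC Γ (P.π (xx N l)) ↔ Tc (lift P Γ) (xx N l) := nc_iff (h.ov _).1

open Classical in
/-- A curve that is not contracted by the restricted family. -/
theorem nn_of {T : Finset (KK N)} (hT : W.Gens c T) (hc : c o = 0) {s s' : k}
    (hs : GnS (T.image P.π) Γ s) (hs' : s' ∈ T.image P.π) (hn : NC Γ (s' / s)) :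
    Nn W (lift P Γ) c := by
  obtain ⟨g, hg, rfl⟩ := mem_image.1 hs.1
  obtain ⟨g', hg', rfl⟩ := mem_image.1 hs'
  have h1 := (h.gns_iff hT hc hg).1 hs
  obtain ⟨h2, h3⟩ := h.pi_ratio hc (hT.1 g' hg') h1
  exact ⟨g, hT.1 g hg, g', hT.1 g' hg', h1, (nc_iff h2.1).1 (h3 ▸ hn)⟩

open Classical in
/-- A contracted curve is contracted by all multiples. -/
theorem not_nn_of {f : Po N} (hE : EOut) (hW : W.OK f) {T : Finset (KK N)} (hT : W.Gens c T)
    (hc : c o = 0) (hx : ∀ l, ¬NC Γ (P.π (xx N l)))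
    (hn : ∀ s, GnS (T.image P.π) Γ s → ∀ s' ∈ T.image P.π, ¬NC Γ (s' / s)) (n : ℕ) :
    ¬Nn W (lift P Γ) (n • c) := by
  obtain ⟨g, hg, h1⟩ := hT.2 _ h.ov
  refine not_nn hE hW h.ov (fun l e => hx l ((h.nc_x l).2 e)) (s := g ^ n) fun V' h2 h3 =>
    (hE.bas N f W hW).gen_pow _ _ _ n (gen_le hE hW hT (hT.1 g hg) h.ov h1 (fun g' hg' e => ?_) h2 h3)
  obtain ⟨h4, h5⟩ := h.pi_ratio hc (hT.1 g' hg') h1
  exact hn _ ((h.gns_iff hT hc hg).2 h1) _ (mem_image_of_mem _ hg') (h5 ▸ (nc_iff h4.1).2 e)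

end Lv

/-- A double curve comes from a discrete valuation of the residue field. -/
theorem exists_dv {W : Mod N} (hB : Bas1 W) (hC : M3E.Cv W) {o i : W.J} (e : P.o = W.v o)
    {V : Vl N} (hV : W.IsCv o i V) {b : W.ι} (hb : W.In b V) :
    ∃ Γ : DV k, Γ.v (P.π (W.η b i)) = 1 ∧ lift P Γ = V ∧ Lv W o P Γ := by
  have h1 : Un P.o.O (W.η b i) := by
    rw [e]
    by_contra h
    exact hV.1 ((hB.thru_v o i).1 ((hB.thru_iff b _ i fun g hg => hV.2.2.1 (hb g hg)).2 h))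
  obtain ⟨Γ, h2, h3⟩ := exists_dv_of (P := P) (e ▸ hV.2.2.1) (hb _ (hB.η_mem b i))
    (hV.2.2.2.1 b hb) h1 fun g hg => (hC.un o i V b hV hb g hg.1
      (e ▸ (P.o.un_O.1 hg).2)).imp fun _ h => h.1
  exact ⟨Γ, h2, h3, hB, e, b, h3 ▸ hb⟩

/-- A curve with a local function that is not constant is a double curve or lies on one divisor. -/
theorem Lv.dich {k : Type} [Field k] [Algebra ℂ k] {P : Pl (KK 3) k} {Γ : DV k} {f : Po 3}
    {W : Mod 3} {o : W.J} (h : Lv W o P Γ) (hU : SUp) (hW : W.OK f) {τ : KK 3}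
    (hτ : ∀ b, W.In b (lift P Γ) → Lc (W.S.A b) (lift P Γ) τ) (ht : Tc (lift P Γ) τ) :
    (∃ i, W.IsCv o i (lift P Γ)) ∨ ∀ j, j ≠ o → ¬W.Thru (lift P Γ) j := by
  obtain ⟨b, hb⟩ := h.cov
  by_contra! hn
  obtain ⟨j, h1, h2⟩ := hn.2
  exact hn.1 j (hU f W hW o j _ b τ h1 hb h.le h2 (hτ b hb) ht)

end Pool.Agent.MP_ee8c61_ag.M3
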