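import Pool.Agent.MP_96693b_ag.DR.RMod
import Pool.Agent.MP_ee8c61_ag.H36.Spec

/-! The Euler characteristic of constructible sets of points of a function field. -/

namespace Pool.Agent.MP_ee8c61_ag.M3

open Set
open Pool.Agent.MP_96693b_ag.RS (Loc LocOf)

noncomputable section

section

variable {L : Type} [Field L] [Algebra ℂ L] {κ : Type}

/-- The values of the functions `y` at a point. -/
def vl (y : κ → L) (P : Loc L) : κ → ℂ := fun k => P.ev (y k)

/-- The points of the affine variety with coordinates `y`. -/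
def Af (y : κ → L) : Set (Loc L) := {P | LocOf (Algebra.adjoin ℂ (range y)) P}

/-- The functions `y` are regular on `W`. -/
def RegOn (y : κ → L) (W : Set (Loc L)) : Prop := ∀ P ∈ W, ∀ k, y k ∈ P.O

/-- Constructible sets of points. -/
inductive ConP : Set (Loc L) → Prop
  | pc (κ : Type) [Finite κ] (y : κ → L) (S : Set (κ → ℂ)) : H36.Con S → ConP (Af y ∩ vl y ⁻¹' S)
  | union {W W' : Set (Loc L)} : ConP W → ConP W' → ConP (W ∪ W')

/-- A sum over a partition into affine pieces. -/
inductive HasChi (χ : H36.Chi) : Set (Loc L) → ℤ → Prop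
  | pc (κ : Type) [Finite κ] (y : κ → L) (S : Set (κ → ℂ)) : H36.Con S →
      HasChi χ (Af y ∩ vl y ⁻¹' S) (χ κ (vl y '' (Af y ∩ vl y ⁻¹' S)))
  | union {W W' : Set (Loc L)} {n n' : ℤ} : HasChi χ W n → HasChi χ W' n' → Disjoint W W' →
      HasChi χ (W ∪ W') (n + n')

/-- The Euler characteristic of a set of points. -/
def chiP (χ : H36.Chi) (W : Set (Loc L)) : ℤ := Classical.epsilon (HasChi χ W)

end

/-- The calculus of constructible sets of points. -/
structure ConOK (L : Type) [Field L] [Algebra ℂ L] : Prop where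
  inter : ∀ W W' : Set (Loc L), ConP W → ConP W' → ConP (W ∩ W')
  diff : ∀ W W' : Set (Loc L), ConP W → ConP W' → ConP (W \ W')
  reg : ∀ (W : Set (Loc L)) (g : L), ConP W → ConP {P ∈ W | g ∈ P.O}
  pre : ∀ (W : Set (Loc L)) (κ : Type) [Finite κ] (y : κ → L) (S : Set (κ → ℂ)), ConP W →
    RegOn y W → H36.Con S → ConP (W ∩ vl y ⁻¹' S)
  img : ∀ (W : Set (Loc L)) (κ : Type) [Finite κ] (y : κ → L), ConP W → RegOn y W →
    H36.Con (vl y '' W)

/-- The calculus of the Euler characteristic. -/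
structure ChiOK (χ : H36.Chi) (L : Type) [Field L] [Algebra ℂ L] : Prop where
  add : ∀ W W' : Set (Loc L), ConP W → ConP W' → Disjoint W W' →
    chiP χ (W ∪ W') = chiP χ W + chiP χ W'
  crd : ∀ (W : Set (Loc L)) (κ : Type) [Finite κ] (y : κ → L), ConP W → RegOn y W →
    InjOn (vl y) W → chiP χ W = χ κ (vl y '' W)

/-- A normalised Euler characteristic. -/
def IsEu (χ : H36.Chi) : Prop := H36.IsEuler χ ∧ χ (Fin 0) univ = 1

def SCON : Prop := ∀ (L : Type) [Field L] [Algebra ℂ L], ConOK L

def SCHI : Prop := ∀ (χ : H36.Chi) (L : Type) [Field L] [Algebra ℂ L], H36.IsEuler χ → ChiOK χ L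

def OfCHI : Prop := SCON → SCHI

end

end Pool.Agent.MP_ee8c61_ag.M3
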