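import Pool.Agent.MP_ee8c61_ag.H59.Kit

/-!
Projective log resolutions of a polynomial as systems of charts in the field of rational
functions. Points are valuation rings.
-/

namespace Pool.Agent.MP_ee8c61_ag.M3

open H59 Finset

noncomputable section

/-! ### Valuations -/

section Val

variable {K : Type} [Field K]

/-- `g` is a unit of `V`. -/
def Un (V : ValuationSubring K) (g : K) : Prop := g ≠ 0 ∧ g ∈ V ∧ g⁻¹ ∈ V

/-- A valuation with values in the integers. -/
structure DV (K : Type) [Field K] where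
  v : K → ℤ
  zero : v 0 = 0
  mul : ∀ g h, g ≠ 0 → h ≠ 0 → v (g * h) = v g + v h
  add : ∀ g h, g ≠ 0 → h ≠ 0 → g + h ≠ 0 → min (v g) (v h) ≤ v (g + h)

namespace DV

variable (d : DV K)

theorem one : d.v 1 = 0 := by
  have := d.mul 1 1 one_ne_zero one_ne_zero
  rw [one_mul] at this
  omega

theorem inv (g : K) : d.v g⁻¹ = -d.v g := by
  by_cases h : g = 0
  · simp [h, d.zero]
  · have := d.mul g g⁻¹ h (inv_ne_zero h)
    rw [mul_inv_cancel₀ h, d.one] at this
    omega

theorem neg (g : K) : d.v (-g) = d.v g := by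
  by_cases h : g = 0
  · simp [h]
  · have h1 := d.mul (-1) (-1) (by simp) (by simp)
    have h2 := d.mul (-1) g (by simp) h
    rw [neg_mul_neg, one_mul, d.one] at h1
    rw [neg_one_mul] at h2
    omega

/-- The elements of value at least `m`. -/
def F (m : ℤ) : AddSubgroup K where
  carrier := {g | g = 0 ∨ m ≤ d.v g}
  zero_mem' := Or.inl rfl
  neg_mem' := fun {g} h => h.imp neg_eq_zero.2 fun h => (d.neg g).symm ▸ h
  add_mem' := fun {g h} hg hh => by
    by_cases h0 : g = 0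
    · simpa [h0] using hh
    by_cases h1 : h = 0
    · simpa [h1] using hg
    by_cases h2 : g + h = 0
    · exact Or.inl h2
    exact Or.inr ((le_min (hg.resolve_left h0) (hh.resolve_left h1)).trans (d.add g h h0 h1 h2))

theorem mem_F {m : ℤ} {g : K} : g ∈ d.F m ↔ g = 0 ∨ m ≤ d.v g := Iff.rfl

theorem F_mul {m m' : ℤ} {g h : K} (hg : g ∈ d.F m) (hh : h ∈ d.F m') : g * h ∈ d.F (m + m') := by
  by_cases h0 : g = 0
  · exact Or.inl (by rw [h0, zero_mul])
  by_cases h1 : h = 0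
  · exact Or.inl (by rw [h1, mul_zero])
  exact Or.inr (d.mul g h h0 h1 ▸ add_le_add (hg.resolve_left h0) (hh.resolve_left h1))

theorem F_anti {m m' : ℤ} (h : m ≤ m') : d.F m' ≤ d.F m := fun _ hg => hg.imp id h.trans

theorem mem_F_self (g : K) : g ∈ d.F (d.v g) := Or.inr le_rfl

/-- The valuation ring. -/
def O : ValuationSubring K where
  carrier := d.F 0
  mul_mem' := fun hg hh => by simpa using d.F_mul hg hh
  one_mem' := Or.inr d.one.ge
  add_mem' := add_mem
  zero_mem' := zero_mem _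
  neg_mem' := neg_mem
  mem_or_inv_mem' := fun g => by
    rcases le_total 0 (d.v g) with h | h
    · exact Or.inl (Or.inr h)
    · exact Or.inr (Or.inr (by rw [d.inv]; omega))

theorem mem_O {g : K} : g ∈ d.O ↔ g ∈ d.F 0 := Iff.rfl

end DV

/-- `g` lies in the local ring of `A` at the centre of `V`. -/
def Lc [Algebra ℂ K] (A : Subalgebra ℂ K) (V : ValuationSubring K) (g : K) : Prop :=
  ∃ s ∈ A, Un V s ∧ s * g ∈ A

end Val

/-! ### Models -/

abbrev Po (N : ℕ) : Type := MvPolynomial (Fin N) ℂ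

abbrev KK (N : ℕ) : Type := FractionRing (Po N)

abbrev ip (N : ℕ) : Po N →ₐ[ℂ] KK N := IsScalarTower.toAlgHom ℂ (Po N) (KK N)

abbrev Vl (N : ℕ) : Type := ValuationSubring (KK N)

variable {N : ℕ}

/-- `V` contains the polynomials. -/
def Ov (V : Vl N) : Prop := ∀ p, ip N p ∈ V

/-- Charts, orders of the polynomial and of the Jacobian, valuations of the divisors. -/
structure Mod (N : ℕ) where
  ι : Type
  J : Type
  fι : Fintype ι
  fJ : Fintype J
  dJ : DecidableEq J
  S : Sys ℂ (KK N) ι J N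
  a : J → ℕ
  k : J → ℕ
  v : J → DV (KK N)

attribute [instance] Mod.fι Mod.fJ Mod.dJ

namespace Mod

variable (M : Mod N)

/-- The equation of the divisor `j` in the chart `b`. -/
abbrev η (b : M.ι) (j : M.J) : KK N := (M.S.η b j : KK N)

/-- The monomial with exponents `c` in the chart `b`. -/
abbrev mon (b : M.ι) (c : M.J → ℤ) : KK N := (M.S.mon b c : KK N)

/-- The centre of `V` lies in the chart `b`. -/
def In (b : M.ι) (V : Vl N) : Prop := ∀ g ∈ M.S.A b, g ∈ V

/-- `g` is a section of the divisor `c` along `V`. -/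
def Oc (V : Vl N) (c : M.J → ℤ) (g : KK N) : Prop := ∀ b, M.In b V → g * M.mon b c ∈ V

/-- `g` generates the sheaf of the divisor `c` along `V`. -/
def Gen (V : Vl N) (c : M.J → ℤ) (g : KK N) : Prop := ∀ b, M.In b V → Un V (g * M.mon b c)

/-- The global sections of the divisor `c`. -/
def H (c : M.J → ℤ) : Set (KK N) := {g | ∀ V, Ov V → M.Oc V c g}

/-- Representatives of the sections of the restriction of `c` to the divisor `o`. -/
def R (o : M.J) (c : M.J → ℤ) : Set (KK N) := {s | ∀ V, Ov V → V ≤ (M.v o).O → M.Oc V c s}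

/-- The section `s` on the divisor `o` is the restriction of a global section. -/
def Lf (o : M.J) (c : M.J → ℤ) (s : KK N) : Prop := ∃ g ∈ M.H c, s - g ∈ (M.v o).F (1 - c o)

/-- The sections in `T` generate everywhere. -/
def Gens (c : M.J → ℤ) (T : Finset (KK N)) : Prop :=
  (∀ g ∈ T, g ∈ M.H c) ∧ ∀ V, Ov V → ∃ g ∈ T, M.Gen V c g

def Free (c : M.J → ℤ) : Prop := ∃ T, M.Gens c T

/-- The sections in `U` generate everywhere on the divisor `o`. -/
def Bpf (o : M.J) (c : M.J → ℤ) (U : Finset (KK N)) : Prop :=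
  (∀ u ∈ U, u ∈ M.R o c) ∧ ∀ V, Ov V → V ≤ (M.v o).O → ∃ u ∈ U, M.Gen V c u

/-- The section `ρ i` of `w` generates exactly on the part of the chart `b i` where `t i` is
invertible, and these sets cover. -/
structure AC (w : M.J → ℤ) {κ : Type} (b : κ → M.ι) (t ρ : κ → KK N) : Prop where
  mem : ∀ i, t i ∈ M.S.A (b i)
  ne : ∀ i, t i ≠ 0
  sec : ∀ i, ρ i ∈ M.H w
  cov : ∀ V, Ov V → ∃ i, M.Gen V w (ρ i)
  gen : ∀ i V, Ov V → (M.Gen V w (ρ i) ↔ M.In (b i) V ∧ (t i)⁻¹ ∈ V)

def Amp (w : M.J → ℤ) : Prop :=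
  ∃ (κ : Type) (_ : Fintype κ) (b : κ → M.ι) (t ρ : κ → KK N), M.AC w b t ρ

/-- The integral vector `c` as a rational vector. -/
def q (c : M.J → ℤ) : M.J → ℚ := fun j => c j

/-- The round-up. -/
def up (A : M.J → ℚ) : M.J → ℤ := fun j => ⌈A j⌉

/-- The basis vector. -/
def e (j : M.J) : M.J → ℤ := Pi.single j 1

/-- The canonical divisor. -/
def kk : M.J → ℤ := fun j => M.k j

/-- The divisor of the polynomial. -/
def aa : M.J → ℤ := fun j => M.a j

def AmpQ (A : M.J → ℚ) : Prop := ∃ (μ : ℕ) (w : M.J → ℤ), 0 < μ ∧ M.Amp w ∧ M.q w = μ • A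

def SemiQ (A : M.J → ℚ) : Prop := ∃ (μ : ℕ) (w : M.J → ℤ), 0 < μ ∧ M.Free w ∧ M.q w = μ • A

/-- `M` is a projective log resolution of `f`. -/
structure OK (f : Po N) : Prop where
  r : M.S.r = fun l => ip N (MvPolynomial.X l)
  et : ∀ b, (M.S.zh b).toRingHom.Etale
  pol : ∀ b p, ip N p ∈ M.S.A b
  ord : ∀ b, ∃ U : (KK N)ˣ, M.S.IsU b U ∧ ip N f = U * M.mon b M.aa
  det : ∀ b, ∃ U : (KK N)ˣ, M.S.IsU b U ∧
    (Matrix.of fun l i => M.S.D b i (M.S.r l)).det = U * M.mon b M.kk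
  pos : ∀ j, 0 < M.a j
  cov : ∀ V, Ov V → ∃ b, M.In b V
  dv : ∀ b j, (M.η b j)⁻¹ ∉ M.S.A b → M.In b (M.v j).O ∧ (M.v j).v (M.η b j) = 1 ∧
    ∀ g ∈ M.S.A b, g ∈ (M.v j).F 1 → g * (M.η b j)⁻¹ ∈ M.S.A b
  ne : ∀ j, ∃ b, (M.η b j)⁻¹ ∉ M.S.A b
  inj : ∀ j j', (M.v j).O = (M.v j').O → j = j'
  amp : ∃ w, M.Amp w

/-- The divisor `j` passes through the centre of `V`. -/
def Thru (V : Vl N) (j : M.J) : Prop := ∀ b, M.In b V → ¬Un V (M.η b j)

/-- `V` refines the valuation of the divisor `o` and its centre is a component of the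
intersection of the divisors `o` and `j`. -/
def IsCv (o j : M.J) (V : Vl N) : Prop :=
  j ≠ o ∧ Ov V ∧ V ≤ (M.v o).O ∧ M.Thru V j ∧ ∀ b, M.In b V → ∀ g ∈ M.S.A b, ¬Un V g →
    ∃ s ∈ M.S.A b, ∃ h ∈ M.S.A b, ∃ h' ∈ M.S.A b, Un V s ∧ s * g = h * M.η b o + h' * M.η b j

end Mod

/-- The model `W` dominates the model `M`. -/
structure Dom (W M : Mod N) where
  e : M.J → W.J
  m : W.J → M.J → ℕ
  v : ∀ j, W.v (e j) = M.v j
  mon : ∀ a b V, M.In a V → W.In b V → ∀ j, Un V (M.η a j / W.mon b fun i => m i j)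
  loc : ∀ b V, W.In b V → ∃ a, ∀ g ∈ M.S.A a, Lc (W.S.A b) V g

namespace Dom

variable {W M : Mod N} (D : Dom W M)

/-- The pull-back of divisors. -/
def pb {R : Type} [CommRing R] (c : M.J → R) : W.J → R := fun i => ∑ j, (D.m i j : R) * c j

/-- The push-forward of divisors. -/
def pf {R : Type} (c : W.J → R) : M.J → R := fun j => c (D.e j)

end Dom

end

end Pool.Agent.MP_ee8c61_ag.M3
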